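import Mathlib

set_option autoImplicit false
set_option linter.unusedSimpArgs false

namespace Pool.Agent.Helper214.UC

open Matrix

section Defs

variable {A : Type*} [NonUnitalRing A]

/-- The standard polynomial of degree three. -/
def s3 (u v w : A) : A :=
  u * v * w - u * w * v - v * u * w + v * w * u + w * u * v - w * v * u

/-- The standard polynomial of degree four. -/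
def s4 (x y z t : A) : A :=
  x * s3 y z t - y * s3 x z t + z * s3 x y t - t * s3 x y z

/-- The four words with `x` doubled and `u, v, w` in this order. -/
def g1 (x u v w : A) : A :=
  u * v * x * x * w + u * x * v * w * x + u * x * v * x * w + x * u * x * v * w

/-- Symmetrisation of `g1` over `u, v, w`. -/
def W1 (x u v w : A) : A :=
  g1 x u v w + g1 x u w v + g1 x v u w + g1 x v w u + g1 x w u v + g1 x w v u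

/-- The degree five correction. -/
def W (x y z t : A) : A :=
  W1 x y z t + W1 y x z t + W1 z x y t + W1 t x y z

/-- The identity. -/
def ff (x y z t : A) : A := s4 x y z t + (2 : ℤ) • W x y z t

end Defs

section Mat

variable {P : Type*} [CommRing P]

/-- `s_4` vanishes on two by two matrices (Amitsur-Levitzki). -/
theorem s4_mat (X Y Z T : Matrix (Fin 2) (Fin 2) P) : s4 X Y Z T = 0 := by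
  ext i j
  fin_cases i <;> fin_cases j <;>
  · simp only [s4, s3, Matrix.mul_apply, Fin.sum_univ_two, Matrix.sub_apply, Matrix.add_apply,
      Matrix.zero_apply, Fin.zero_eta, Fin.mk_one, Fin.isValue]
    ring

/-- `tr(s_3) - s_3`. -/
def K (Y Z T : Matrix (Fin 2) (Fin 2) P) : Matrix (Fin 2) (Fin 2) P :=
  !![s3 Y Z T 1 1, - s3 Y Z T 0 1; - s3 Y Z T 1 0, s3 Y Z T 0 0]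

/-- Twice the square of the trace. -/
def D (X : Matrix (Fin 2) (Fin 2) P) : P := 2 * (X 0 0 + X 1 1) ^ 2

theorem W1_mat (h4 : (4 : P) = 0) (X Y Z T : Matrix (Fin 2) (Fin 2) P) :
    (2 : ℤ) • W1 X Y Z T = D X • K Y Z T := by
  ext i j
  fin_cases i <;> fin_cases j
  · simp only [W1, g1, K, D, s3, Matrix.mul_apply, Fin.sum_univ_two, Matrix.sub_apply, Matrix.add_apply,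
      Matrix.smul_apply, Matrix.of_apply, Matrix.cons_val', Matrix.cons_val_zero, Matrix.cons_val_one,
      Matrix.empty_val', Matrix.cons_val_fin_one, Fin.zero_eta, Fin.mk_one, Fin.isValue, smul_eq_mul,
      zsmul_eq_mul, Int.cast_ofNat]
    linear_combination ((12)*(T 0 0*X 0 0^2*Y 0 0*Z 0 0) + (1)*(T 0 0*X 0 0^2*Y 0 1*Z 1 0) + (2)*(T 0 0*X 0 0^2*Y 1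
        0*Z 0 1) + (6)*(T 0 0*X 0 0*X 0 1*Y 0 0*Z 1 0) + (6)*(T 0 0*X 0 0*X 0 1*Y 1 0*Z 0 0) +
        (1)*(T 0 0*X 0 0*X 0 1*Y 1 0*Z 1 1) + (1)*(T 0 0*X 0 0*X 0 1*Y 1 1*Z 1 0) + (6)*(T 0 0*X 0
        0*X 1 0*Y 0 0*Z 0 1) + (6)*(T 0 0*X 0 0*X 1 0*Y 0 1*Z 0 0) + (1)*(T 0 0*X 0 0*X 1 0*Y 0 1*Z
        1 1) + (1)*(T 0 0*X 0 0*X 1 0*Y 1 1*Z 0 1) + (1)*(T 0 0*X 0 0*X 1 1*Y 0 1*Z 1 0) + (3)*(T 0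
        0*X 0 0*X 1 1*Y 1 0*Z 0 1) + (2)*(T 0 0*X 0 1^2*Y 1 0*Z 1 0) + (3)*(T 0 0*X 0 1*X 1 0*Y 0
        0*Z 0 0) + (2)*(T 0 0*X 0 1*X 1 0*Y 0 0*Z 1 1) + (2)*(T 0 0*X 0 1*X 1 0*Y 0 1*Z 1 0) +
        (2)*(T 0 0*X 0 1*X 1 0*Y 1 0*Z 0 1) + (2)*(T 0 0*X 0 1*X 1 0*Y 1 1*Z 0 0) + (1)*(T 0 0*X 0
        1*X 1 0*Y 1 1*Z 1 1) + (1)*(T 0 0*X 0 1*X 1 1*Y 0 0*Z 1 0) + (1)*(T 0 0*X 0 1*X 1 1*Y 1 0*Z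
        0 0) + (1)*(T 0 0*X 0 1*X 1 1*Y 1 0*Z 1 1) + (1)*(T 0 0*X 0 1*X 1 1*Y 1 1*Z 1 0) + (2)*(T 0
        0*X 1 0^2*Y 0 1*Z 0 1) + (1)*(T 0 0*X 1 0*X 1 1*Y 0 0*Z 0 1) + (1)*(T 0 0*X 1 0*X 1 1*Y 0
        1*Z 0 0) + (1)*(T 0 0*X 1 0*X 1 1*Y 0 1*Z 1 1) + (1)*(T 0 0*X 1 0*X 1 1*Y 1 1*Z 0 1) +
        (1)*(T 0 0*X 1 1^2*Y 1 0*Z 0 1) + (2)*(T 0 1*X 0 0^2*Y 0 0*Z 1 0) + (1)*(T 0 1*X 0 0^2*Y 1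
        0*Z 0 0) + (1)*(T 0 1*X 0 0^2*Y 1 0*Z 1 1) + (-1)*(T 0 1*X 0 0^2*Y 1 1*Z 1 0) + (2)*(T 0 1*X
        0 0*X 0 1*Y 1 0*Z 1 0) + (6)*(T 0 1*X 0 0*X 1 0*Y 0 0*Z 0 0) + (1)*(T 0 1*X 0 0*X 1 0*Y 0
        0*Z 1 1) + (2)*(T 0 1*X 0 0*X 1 0*Y 0 1*Z 1 0) + (2)*(T 0 1*X 0 0*X 1 0*Y 1 0*Z 0 1) +
        (1)*(T 0 1*X 0 0*X 1 0*Y 1 1*Z 0 0) + (3)*(T 0 1*X 0 0*X 1 1*Y 0 0*Z 1 0) + (1)*(T 0 1*X 0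
        0*X 1 1*Y 1 0*Z 0 0) + (3)*(T 0 1*X 0 0*X 1 1*Y 1 0*Z 1 1) + (-1)*(T 0 1*X 0 0*X 1 1*Y 1 1*Z
        1 0) + (2)*(T 0 1*X 0 1*X 1 0*Y 0 0*Z 1 0) + (2)*(T 0 1*X 0 1*X 1 0*Y 1 0*Z 0 0) + (1)*(T 0
        1*X 0 1*X 1 0*Y 1 0*Z 1 1) + (1)*(T 0 1*X 0 1*X 1 0*Y 1 1*Z 1 0) + (2)*(T 0 1*X 0 1*X 1 1*Y
        1 0*Z 1 0) + (2)*(T 0 1*X 1 0^2*Y 0 0*Z 0 1) + (2)*(T 0 1*X 1 0^2*Y 0 1*Z 0 0) + (1)*(T 0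
        1*X 1 0^2*Y 0 1*Z 1 1) + (1)*(T 0 1*X 1 0^2*Y 1 1*Z 0 1) + (1)*(T 0 1*X 1 0*X 1 1*Y 0 0*Z 0
        0) + (1)*(T 0 1*X 1 0*X 1 1*Y 0 0*Z 1 1) + (2)*(T 0 1*X 1 0*X 1 1*Y 0 1*Z 1 0) + (2)*(T 0
        1*X 1 0*X 1 1*Y 1 0*Z 0 1) + (1)*(T 0 1*X 1 0*X 1 1*Y 1 1*Z 0 0) + (1)*(T 0 1*X 1 0*X 1 1*Y
        1 1*Z 1 1) + (1)*(T 0 1*X 1 1^2*Y 0 0*Z 1 0) + (2)*(T 0 1*X 1 1^2*Y 1 0*Z 1 1) + (1)*(T 1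
        0*X 0 0^2*Y 0 0*Z 0 1) + (2)*(T 1 0*X 0 0^2*Y 0 1*Z 0 0) + (-1)*(T 1 0*X 0 0^2*Y 0 1*Z 1 1)
        + (1)*(T 1 0*X 0 0^2*Y 1 1*Z 0 1) + (6)*(T 1 0*X 0 0*X 0 1*Y 0 0*Z 0 0) + (1)*(T 1 0*X 0 0*X
        0 1*Y 0 0*Z 1 1) + (2)*(T 1 0*X 0 0*X 0 1*Y 0 1*Z 1 0) + (2)*(T 1 0*X 0 0*X 0 1*Y 1 0*Z 0 1)
        + (1)*(T 1 0*X 0 0*X 0 1*Y 1 1*Z 0 0) + (2)*(T 1 0*X 0 0*X 1 0*Y 0 1*Z 0 1) + (1)*(T 1 0*X 0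
        0*X 1 1*Y 0 0*Z 0 1) + (3)*(T 1 0*X 0 0*X 1 1*Y 0 1*Z 0 0) + (-1)*(T 1 0*X 0 0*X 1 1*Y 0 1*Z
        1 1) + (3)*(T 1 0*X 0 0*X 1 1*Y 1 1*Z 0 1) + (2)*(T 1 0*X 0 1^2*Y 0 0*Z 1 0) + (2)*(T 1 0*X
        0 1^2*Y 1 0*Z 0 0) + (1)*(T 1 0*X 0 1^2*Y 1 0*Z 1 1) + (1)*(T 1 0*X 0 1^2*Y 1 1*Z 1 0) +
        (2)*(T 1 0*X 0 1*X 1 0*Y 0 0*Z 0 1) + (2)*(T 1 0*X 0 1*X 1 0*Y 0 1*Z 0 0) + (1)*(T 1 0*X 0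
        1*X 1 0*Y 0 1*Z 1 1) + (1)*(T 1 0*X 0 1*X 1 0*Y 1 1*Z 0 1) + (1)*(T 1 0*X 0 1*X 1 1*Y 0 0*Z
        0 0) + (1)*(T 1 0*X 0 1*X 1 1*Y 0 0*Z 1 1) + (2)*(T 1 0*X 0 1*X 1 1*Y 0 1*Z 1 0) + (2)*(T 1
        0*X 0 1*X 1 1*Y 1 0*Z 0 1) + (1)*(T 1 0*X 0 1*X 1 1*Y 1 1*Z 0 0) + (1)*(T 1 0*X 0 1*X 1 1*Y
        1 1*Z 1 1) + (2)*(T 1 0*X 1 0*X 1 1*Y 0 1*Z 0 1) + (1)*(T 1 0*X 1 1^2*Y 0 1*Z 0 0) + (2)*(T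
        1 0*X 1 1^2*Y 1 1*Z 0 1) + (1)*(T 1 1*X 0 0^2*Y 0 1*Z 1 0) + (-1)*(T 1 1*X 0 0^2*Y 1 0*Z 0
        1) + (1)*(T 1 1*X 0 0*X 0 1*Y 0 0*Z 1 0) + (1)*(T 1 1*X 0 0*X 0 1*Y 1 0*Z 0 0) + (1)*(T 1
        1*X 0 0*X 1 0*Y 0 0*Z 0 1) + (1)*(T 1 1*X 0 0*X 1 0*Y 0 1*Z 0 0) + (3)*(T 1 1*X 0 0*X 1 1*Y
        0 1*Z 1 0) + (-1)*(T 1 1*X 0 0*X 1 1*Y 1 0*Z 0 1) + (1)*(T 1 1*X 0 1^2*Y 1 0*Z 1 0) + (2)*(T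
        1 1*X 0 1*X 1 0*Y 0 0*Z 0 0) + (1)*(T 1 1*X 0 1*X 1 0*Y 0 0*Z 1 1) + (1)*(T 1 1*X 0 1*X 1
        0*Y 0 1*Z 1 0) + (1)*(T 1 1*X 0 1*X 1 0*Y 1 0*Z 0 1) + (1)*(T 1 1*X 0 1*X 1 0*Y 1 1*Z 0 0) +
        (1)*(T 1 1*X 0 1*X 1 1*Y 0 0*Z 1 0) + (1)*(T 1 1*X 0 1*X 1 1*Y 1 0*Z 0 0) + (1)*(T 1 1*X 0
        1*X 1 1*Y 1 0*Z 1 1) + (1)*(T 1 1*X 0 1*X 1 1*Y 1 1*Z 1 0) + (1)*(T 1 1*X 1 0^2*Y 0 1*Z 0 1)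
        + (1)*(T 1 1*X 1 0*X 1 1*Y 0 0*Z 0 1) + (1)*(T 1 1*X 1 0*X 1 1*Y 0 1*Z 0 0) + (1)*(T 1 1*X 1
        0*X 1 1*Y 0 1*Z 1 1) + (1)*(T 1 1*X 1 0*X 1 1*Y 1 1*Z 0 1) + (2)*(T 1 1*X 1 1^2*Y 0 1*Z 1 0)) * h4
  · simp only [W1, g1, K, D, s3, Matrix.mul_apply, Fin.sum_univ_two, Matrix.sub_apply, Matrix.add_apply,
      Matrix.smul_apply, Matrix.of_apply, Matrix.cons_val', Matrix.cons_val_zero, Matrix.cons_val_one,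
      Matrix.empty_val', Matrix.cons_val_fin_one, Fin.zero_eta, Fin.mk_one, Fin.isValue, smul_eq_mul,
      zsmul_eq_mul, Int.cast_ofNat]
    linear_combination ((3)*(T 0 0*X 0 0^2*Y 0 0*Z 0 1) + (3)*(T 0 0*X 0 0^2*Y 0 1*Z 0 0) + (1)*(T 0 0*X 0 0^2*Y 0
        1*Z 1 1) + (3)*(T 0 0*X 0 0*X 0 1*Y 0 0*Z 0 0) + (2)*(T 0 0*X 0 0*X 0 1*Y 0 0*Z 1 1) +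
        (2)*(T 0 0*X 0 0*X 0 1*Y 0 1*Z 1 0) + (2)*(T 0 0*X 0 0*X 0 1*Y 1 0*Z 0 1) + (2)*(T 0 0*X 0
        0*X 0 1*Y 1 1*Z 0 0) + (1)*(T 0 0*X 0 0*X 0 1*Y 1 1*Z 1 1) + (4)*(T 0 0*X 0 0*X 1 0*Y 0 1*Z
        0 1) + (1)*(T 0 0*X 0 0*X 1 1*Y 0 0*Z 0 1) + (1)*(T 0 0*X 0 0*X 1 1*Y 0 1*Z 0 0) + (2)*(T 0
        0*X 0 0*X 1 1*Y 0 1*Z 1 1) + (1)*(T 0 0*X 0 1^2*Y 0 0*Z 1 0) + (1)*(T 0 0*X 0 1^2*Y 1 0*Z 0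
        0) + (1)*(T 0 0*X 0 1^2*Y 1 0*Z 1 1) + (1)*(T 0 0*X 0 1^2*Y 1 1*Z 1 0) + (2)*(T 0 0*X 0 1*X
        1 0*Y 0 0*Z 0 1) + (2)*(T 0 0*X 0 1*X 1 0*Y 0 1*Z 0 0) + (2)*(T 0 0*X 0 1*X 1 0*Y 0 1*Z 1 1)
        + (2)*(T 0 0*X 0 1*X 1 0*Y 1 1*Z 0 1) + (1)*(T 0 0*X 0 1*X 1 1*Y 0 0*Z 1 1) + (1)*(T 0 0*X 0
        1*X 1 1*Y 0 1*Z 1 0) + (1)*(T 0 0*X 0 1*X 1 1*Y 1 0*Z 0 1) + (1)*(T 0 0*X 0 1*X 1 1*Y 1 1*Z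
        0 0) + (2)*(T 0 0*X 0 1*X 1 1*Y 1 1*Z 1 1) + (2)*(T 0 0*X 1 0*X 1 1*Y 0 1*Z 0 1) + (1)*(T 0
        0*X 1 1^2*Y 0 1*Z 1 1) + (3)*(T 0 1*X 0 0^2*Y 0 0*Z 0 0) + (1)*(T 0 1*X 0 0^2*Y 0 1*Z 1 0) +
        (1)*(T 0 1*X 0 0^2*Y 1 0*Z 0 1) + (1)*(T 0 1*X 0 0^2*Y 1 1*Z 0 0) + (2)*(T 0 1*X 0 0*X 0 1*Y
        0 0*Z 1 0) + (2)*(T 0 1*X 0 0*X 0 1*Y 1 0*Z 0 0) + (1)*(T 0 1*X 0 0*X 0 1*Y 1 0*Z 1 1) +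
        (1)*(T 0 1*X 0 0*X 0 1*Y 1 1*Z 1 0) + (4)*(T 0 1*X 0 0*X 1 0*Y 0 0*Z 0 1) + (4)*(T 0 1*X 0
        0*X 1 0*Y 0 1*Z 0 0) + (2)*(T 0 1*X 0 0*X 1 0*Y 0 1*Z 1 1) + (2)*(T 0 1*X 0 0*X 1 0*Y 1 1*Z
        0 1) + (1)*(T 0 1*X 0 0*X 1 1*Y 0 0*Z 0 0) + (2)*(T 0 1*X 0 0*X 1 1*Y 0 1*Z 1 0) + (2)*(T 0
        1*X 0 0*X 1 1*Y 1 0*Z 0 1) + (2)*(T 0 1*X 0 0*X 1 1*Y 1 1*Z 0 0) + (1)*(T 0 1*X 0 0*X 1 1*Y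
        1 1*Z 1 1) + (1)*(T 0 1*X 0 1^2*Y 1 0*Z 1 0) + (2)*(T 0 1*X 0 1*X 1 0*Y 0 0*Z 0 0) + (2)*(T
        0 1*X 0 1*X 1 0*Y 0 0*Z 1 1) + (2)*(T 0 1*X 0 1*X 1 0*Y 0 1*Z 1 0) + (2)*(T 0 1*X 0 1*X 1
        0*Y 1 0*Z 0 1) + (2)*(T 0 1*X 0 1*X 1 0*Y 1 1*Z 0 0) + (2)*(T 0 1*X 0 1*X 1 0*Y 1 1*Z 1 1) +
        (1)*(T 0 1*X 0 1*X 1 1*Y 0 0*Z 1 0) + (1)*(T 0 1*X 0 1*X 1 1*Y 1 0*Z 0 0) + (2)*(T 0 1*X 0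
        1*X 1 1*Y 1 0*Z 1 1) + (2)*(T 0 1*X 0 1*X 1 1*Y 1 1*Z 1 0) + (3)*(T 0 1*X 1 0^2*Y 0 1*Z 0 1)
        + (2)*(T 0 1*X 1 0*X 1 1*Y 0 0*Z 0 1) + (2)*(T 0 1*X 1 0*X 1 1*Y 0 1*Z 0 0) + (4)*(T 0 1*X 1
        0*X 1 1*Y 0 1*Z 1 1) + (4)*(T 0 1*X 1 0*X 1 1*Y 1 1*Z 0 1) + (1)*(T 0 1*X 1 1^2*Y 0 1*Z 1 0)
        + (1)*(T 0 1*X 1 1^2*Y 1 0*Z 0 1) + (1)*(T 0 1*X 1 1^2*Y 1 1*Z 0 0) + (3)*(T 0 1*X 1 1^2*Y 1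
        1*Z 1 1) + (1)*(T 1 0*X 0 0^2*Y 0 1*Z 0 1) + (2)*(T 1 0*X 0 0*X 0 1*Y 0 0*Z 0 1) + (2)*(T 1
        0*X 0 0*X 0 1*Y 0 1*Z 0 0) + (1)*(T 1 0*X 0 0*X 0 1*Y 0 1*Z 1 1) + (1)*(T 1 0*X 0 0*X 0 1*Y
        1 1*Z 0 1) + (2)*(T 1 0*X 0 0*X 1 1*Y 0 1*Z 0 1) + (1)*(T 1 0*X 0 1^2*Y 0 0*Z 0 0) + (1)*(T
        1 0*X 0 1^2*Y 0 0*Z 1 1) + (1)*(T 1 0*X 0 1^2*Y 0 1*Z 1 0) + (1)*(T 1 0*X 0 1^2*Y 1 0*Z 0 1)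
        + (1)*(T 1 0*X 0 1^2*Y 1 1*Z 0 0) + (1)*(T 1 0*X 0 1^2*Y 1 1*Z 1 1) + (2)*(T 1 0*X 0 1*X 1
        0*Y 0 1*Z 0 1) + (1)*(T 1 0*X 0 1*X 1 1*Y 0 0*Z 0 1) + (1)*(T 1 0*X 0 1*X 1 1*Y 0 1*Z 0 0) +
        (2)*(T 1 0*X 0 1*X 1 1*Y 0 1*Z 1 1) + (2)*(T 1 0*X 0 1*X 1 1*Y 1 1*Z 0 1) + (1)*(T 1 0*X 1
        1^2*Y 0 1*Z 0 1) + (1)*(T 1 1*X 0 0^2*Y 0 0*Z 0 1) + (2)*(T 1 1*X 0 0*X 0 1*Y 0 0*Z 0 0) +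
        (1)*(T 1 1*X 0 0*X 0 1*Y 0 0*Z 1 1) + (1)*(T 1 1*X 0 0*X 0 1*Y 0 1*Z 1 0) + (1)*(T 1 1*X 0
        0*X 0 1*Y 1 0*Z 0 1) + (1)*(T 1 1*X 0 0*X 0 1*Y 1 1*Z 0 0) + (2)*(T 1 1*X 0 0*X 1 0*Y 0 1*Z
        0 1) + (2)*(T 1 1*X 0 0*X 1 1*Y 0 0*Z 0 1) + (1)*(T 1 1*X 0 0*X 1 1*Y 0 1*Z 1 1) + (1)*(T 1
        1*X 0 0*X 1 1*Y 1 1*Z 0 1) + (1)*(T 1 1*X 0 1^2*Y 0 0*Z 1 0) + (1)*(T 1 1*X 0 1^2*Y 1 0*Z 0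
        0) + (1)*(T 1 1*X 0 1^2*Y 1 0*Z 1 1) + (1)*(T 1 1*X 0 1^2*Y 1 1*Z 1 0) + (2)*(T 1 1*X 0 1*X
        1 0*Y 0 0*Z 0 1) + (2)*(T 1 1*X 0 1*X 1 0*Y 0 1*Z 0 0) + (2)*(T 1 1*X 0 1*X 1 0*Y 0 1*Z 1 1)
        + (2)*(T 1 1*X 0 1*X 1 0*Y 1 1*Z 0 1) + (1)*(T 1 1*X 0 1*X 1 1*Y 0 0*Z 0 0) + (2)*(T 1 1*X 0
        1*X 1 1*Y 0 0*Z 1 1) + (2)*(T 1 1*X 0 1*X 1 1*Y 0 1*Z 1 0) + (2)*(T 1 1*X 0 1*X 1 1*Y 1 0*Z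
        0 1) + (2)*(T 1 1*X 0 1*X 1 1*Y 1 1*Z 0 0) + (3)*(T 1 1*X 0 1*X 1 1*Y 1 1*Z 1 1) + (4)*(T 1
        1*X 1 0*X 1 1*Y 0 1*Z 0 1) + (1)*(T 1 1*X 1 1^2*Y 0 0*Z 0 1) + (3)*(T 1 1*X 1 1^2*Y 0 1*Z 1
        1) + (3)*(T 1 1*X 1 1^2*Y 1 1*Z 0 1)) * h4
  · simp only [W1, g1, K, D, s3, Matrix.mul_apply, Fin.sum_univ_two, Matrix.sub_apply, Matrix.add_apply,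
      Matrix.smul_apply, Matrix.of_apply, Matrix.cons_val', Matrix.cons_val_zero, Matrix.cons_val_one,
      Matrix.empty_val', Matrix.cons_val_fin_one, Fin.zero_eta, Fin.mk_one, Fin.isValue, smul_eq_mul,
      zsmul_eq_mul, Int.cast_ofNat]
    linear_combination ((3)*(T 0 0*X 0 0^2*Y 0 0*Z 1 0) + (3)*(T 0 0*X 0 0^2*Y 1 0*Z 0 0) + (1)*(T 0 0*X 0 0^2*Y 1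
        1*Z 1 0) + (4)*(T 0 0*X 0 0*X 0 1*Y 1 0*Z 1 0) + (3)*(T 0 0*X 0 0*X 1 0*Y 0 0*Z 0 0) +
        (2)*(T 0 0*X 0 0*X 1 0*Y 0 0*Z 1 1) + (2)*(T 0 0*X 0 0*X 1 0*Y 0 1*Z 1 0) + (2)*(T 0 0*X 0
        0*X 1 0*Y 1 0*Z 0 1) + (2)*(T 0 0*X 0 0*X 1 0*Y 1 1*Z 0 0) + (1)*(T 0 0*X 0 0*X 1 0*Y 1 1*Z
        1 1) + (1)*(T 0 0*X 0 0*X 1 1*Y 0 0*Z 1 0) + (1)*(T 0 0*X 0 0*X 1 1*Y 1 0*Z 0 0) + (2)*(T 0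
        0*X 0 0*X 1 1*Y 1 1*Z 1 0) + (2)*(T 0 0*X 0 1*X 1 0*Y 0 0*Z 1 0) + (2)*(T 0 0*X 0 1*X 1 0*Y
        1 0*Z 0 0) + (2)*(T 0 0*X 0 1*X 1 0*Y 1 0*Z 1 1) + (2)*(T 0 0*X 0 1*X 1 0*Y 1 1*Z 1 0) +
        (2)*(T 0 0*X 0 1*X 1 1*Y 1 0*Z 1 0) + (1)*(T 0 0*X 1 0^2*Y 0 0*Z 0 1) + (1)*(T 0 0*X 1 0^2*Y
        0 1*Z 0 0) + (1)*(T 0 0*X 1 0^2*Y 0 1*Z 1 1) + (1)*(T 0 0*X 1 0^2*Y 1 1*Z 0 1) + (1)*(T 0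
        0*X 1 0*X 1 1*Y 0 0*Z 1 1) + (1)*(T 0 0*X 1 0*X 1 1*Y 0 1*Z 1 0) + (1)*(T 0 0*X 1 0*X 1 1*Y
        1 0*Z 0 1) + (1)*(T 0 0*X 1 0*X 1 1*Y 1 1*Z 0 0) + (2)*(T 0 0*X 1 0*X 1 1*Y 1 1*Z 1 1) +
        (1)*(T 0 0*X 1 1^2*Y 1 1*Z 1 0) + (1)*(T 0 1*X 0 0^2*Y 1 0*Z 1 0) + (2)*(T 0 1*X 0 0*X 1 0*Y
        0 0*Z 1 0) + (2)*(T 0 1*X 0 0*X 1 0*Y 1 0*Z 0 0) + (1)*(T 0 1*X 0 0*X 1 0*Y 1 0*Z 1 1) +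
        (1)*(T 0 1*X 0 0*X 1 0*Y 1 1*Z 1 0) + (2)*(T 0 1*X 0 0*X 1 1*Y 1 0*Z 1 0) + (2)*(T 0 1*X 0
        1*X 1 0*Y 1 0*Z 1 0) + (1)*(T 0 1*X 1 0^2*Y 0 0*Z 0 0) + (1)*(T 0 1*X 1 0^2*Y 0 0*Z 1 1) +
        (1)*(T 0 1*X 1 0^2*Y 0 1*Z 1 0) + (1)*(T 0 1*X 1 0^2*Y 1 0*Z 0 1) + (1)*(T 0 1*X 1 0^2*Y 1
        1*Z 0 0) + (1)*(T 0 1*X 1 0^2*Y 1 1*Z 1 1) + (1)*(T 0 1*X 1 0*X 1 1*Y 0 0*Z 1 0) + (1)*(T 0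
        1*X 1 0*X 1 1*Y 1 0*Z 0 0) + (2)*(T 0 1*X 1 0*X 1 1*Y 1 0*Z 1 1) + (2)*(T 0 1*X 1 0*X 1 1*Y
        1 1*Z 1 0) + (1)*(T 0 1*X 1 1^2*Y 1 0*Z 1 0) + (3)*(T 1 0*X 0 0^2*Y 0 0*Z 0 0) + (1)*(T 1
        0*X 0 0^2*Y 0 0*Z 1 1) + (1)*(T 1 0*X 0 0^2*Y 0 1*Z 1 0) + (1)*(T 1 0*X 0 0^2*Y 1 0*Z 0 1) +
        (4)*(T 1 0*X 0 0*X 0 1*Y 0 0*Z 1 0) + (4)*(T 1 0*X 0 0*X 0 1*Y 1 0*Z 0 0) + (2)*(T 1 0*X 0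
        0*X 0 1*Y 1 0*Z 1 1) + (2)*(T 1 0*X 0 0*X 0 1*Y 1 1*Z 1 0) + (2)*(T 1 0*X 0 0*X 1 0*Y 0 0*Z
        0 1) + (2)*(T 1 0*X 0 0*X 1 0*Y 0 1*Z 0 0) + (1)*(T 1 0*X 0 0*X 1 0*Y 0 1*Z 1 1) + (1)*(T 1
        0*X 0 0*X 1 0*Y 1 1*Z 0 1) + (1)*(T 1 0*X 0 0*X 1 1*Y 0 0*Z 0 0) + (2)*(T 1 0*X 0 0*X 1 1*Y
        0 0*Z 1 1) + (2)*(T 1 0*X 0 0*X 1 1*Y 0 1*Z 1 0) + (2)*(T 1 0*X 0 0*X 1 1*Y 1 0*Z 0 1) +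
        (1)*(T 1 0*X 0 0*X 1 1*Y 1 1*Z 1 1) + (3)*(T 1 0*X 0 1^2*Y 1 0*Z 1 0) + (2)*(T 1 0*X 0 1*X 1
        0*Y 0 0*Z 0 0) + (2)*(T 1 0*X 0 1*X 1 0*Y 0 0*Z 1 1) + (2)*(T 1 0*X 0 1*X 1 0*Y 0 1*Z 1 0) +
        (2)*(T 1 0*X 0 1*X 1 0*Y 1 0*Z 0 1) + (2)*(T 1 0*X 0 1*X 1 0*Y 1 1*Z 0 0) + (2)*(T 1 0*X 0
        1*X 1 0*Y 1 1*Z 1 1) + (2)*(T 1 0*X 0 1*X 1 1*Y 0 0*Z 1 0) + (2)*(T 1 0*X 0 1*X 1 1*Y 1 0*Z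
        0 0) + (4)*(T 1 0*X 0 1*X 1 1*Y 1 0*Z 1 1) + (4)*(T 1 0*X 0 1*X 1 1*Y 1 1*Z 1 0) + (1)*(T 1
        0*X 1 0^2*Y 0 1*Z 0 1) + (1)*(T 1 0*X 1 0*X 1 1*Y 0 0*Z 0 1) + (1)*(T 1 0*X 1 0*X 1 1*Y 0
        1*Z 0 0) + (2)*(T 1 0*X 1 0*X 1 1*Y 0 1*Z 1 1) + (2)*(T 1 0*X 1 0*X 1 1*Y 1 1*Z 0 1) +
        (1)*(T 1 0*X 1 1^2*Y 0 0*Z 1 1) + (1)*(T 1 0*X 1 1^2*Y 0 1*Z 1 0) + (1)*(T 1 0*X 1 1^2*Y 1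
        0*Z 0 1) + (3)*(T 1 0*X 1 1^2*Y 1 1*Z 1 1) + (1)*(T 1 1*X 0 0^2*Y 1 0*Z 0 0) + (2)*(T 1 1*X
        0 0*X 0 1*Y 1 0*Z 1 0) + (2)*(T 1 1*X 0 0*X 1 0*Y 0 0*Z 0 0) + (1)*(T 1 1*X 0 0*X 1 0*Y 0
        0*Z 1 1) + (1)*(T 1 1*X 0 0*X 1 0*Y 0 1*Z 1 0) + (1)*(T 1 1*X 0 0*X 1 0*Y 1 0*Z 0 1) +
        (1)*(T 1 1*X 0 0*X 1 0*Y 1 1*Z 0 0) + (2)*(T 1 1*X 0 0*X 1 1*Y 1 0*Z 0 0) + (1)*(T 1 1*X 0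
        0*X 1 1*Y 1 0*Z 1 1) + (1)*(T 1 1*X 0 0*X 1 1*Y 1 1*Z 1 0) + (2)*(T 1 1*X 0 1*X 1 0*Y 0 0*Z
        1 0) + (2)*(T 1 1*X 0 1*X 1 0*Y 1 0*Z 0 0) + (2)*(T 1 1*X 0 1*X 1 0*Y 1 0*Z 1 1) + (2)*(T 1
        1*X 0 1*X 1 0*Y 1 1*Z 1 0) + (4)*(T 1 1*X 0 1*X 1 1*Y 1 0*Z 1 0) + (1)*(T 1 1*X 1 0^2*Y 0
        0*Z 0 1) + (1)*(T 1 1*X 1 0^2*Y 0 1*Z 0 0) + (1)*(T 1 1*X 1 0^2*Y 0 1*Z 1 1) + (1)*(T 1 1*X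
        1 0^2*Y 1 1*Z 0 1) + (1)*(T 1 1*X 1 0*X 1 1*Y 0 0*Z 0 0) + (2)*(T 1 1*X 1 0*X 1 1*Y 0 0*Z 1
        1) + (2)*(T 1 1*X 1 0*X 1 1*Y 0 1*Z 1 0) + (2)*(T 1 1*X 1 0*X 1 1*Y 1 0*Z 0 1) + (2)*(T 1
        1*X 1 0*X 1 1*Y 1 1*Z 0 0) + (3)*(T 1 1*X 1 0*X 1 1*Y 1 1*Z 1 1) + (1)*(T 1 1*X 1 1^2*Y 1
        0*Z 0 0) + (3)*(T 1 1*X 1 1^2*Y 1 0*Z 1 1) + (3)*(T 1 1*X 1 1^2*Y 1 1*Z 1 0)) * h4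
  · simp only [W1, g1, K, D, s3, Matrix.mul_apply, Fin.sum_univ_two, Matrix.sub_apply, Matrix.add_apply,
      Matrix.smul_apply, Matrix.of_apply, Matrix.cons_val', Matrix.cons_val_zero, Matrix.cons_val_one,
      Matrix.empty_val', Matrix.cons_val_fin_one, Fin.zero_eta, Fin.mk_one, Fin.isValue, smul_eq_mul,
      zsmul_eq_mul, Int.cast_ofNat]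
    linear_combination ((2)*(T 0 0*X 0 0^2*Y 1 0*Z 0 1) + (1)*(T 0 0*X 0 0*X 0 1*Y 0 0*Z 1 0) + (1)*(T 0 0*X 0 0*X 0
        1*Y 1 0*Z 0 0) + (1)*(T 0 0*X 0 0*X 0 1*Y 1 0*Z 1 1) + (1)*(T 0 0*X 0 0*X 0 1*Y 1 1*Z 1 0) +
        (1)*(T 0 0*X 0 0*X 1 0*Y 0 0*Z 0 1) + (1)*(T 0 0*X 0 0*X 1 0*Y 0 1*Z 0 0) + (1)*(T 0 0*X 0
        0*X 1 0*Y 0 1*Z 1 1) + (1)*(T 0 0*X 0 0*X 1 0*Y 1 1*Z 0 1) + (-1)*(T 0 0*X 0 0*X 1 1*Y 0 1*Z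
        1 0) + (3)*(T 0 0*X 0 0*X 1 1*Y 1 0*Z 0 1) + (1)*(T 0 0*X 0 1^2*Y 1 0*Z 1 0) + (1)*(T 0 0*X
        0 1*X 1 0*Y 0 0*Z 1 1) + (1)*(T 0 0*X 0 1*X 1 0*Y 0 1*Z 1 0) + (1)*(T 0 0*X 0 1*X 1 0*Y 1
        0*Z 0 1) + (1)*(T 0 0*X 0 1*X 1 0*Y 1 1*Z 0 0) + (2)*(T 0 0*X 0 1*X 1 0*Y 1 1*Z 1 1) +
        (1)*(T 0 0*X 0 1*X 1 1*Y 1 0*Z 1 1) + (1)*(T 0 0*X 0 1*X 1 1*Y 1 1*Z 1 0) + (1)*(T 0 0*X 1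
        0^2*Y 0 1*Z 0 1) + (1)*(T 0 0*X 1 0*X 1 1*Y 0 1*Z 1 1) + (1)*(T 0 0*X 1 0*X 1 1*Y 1 1*Z 0 1)
        + (-1)*(T 0 0*X 1 1^2*Y 0 1*Z 1 0) + (1)*(T 0 0*X 1 1^2*Y 1 0*Z 0 1) + (2)*(T 0 1*X 0 0^2*Y
        0 0*Z 1 0) + (1)*(T 0 1*X 0 0^2*Y 1 0*Z 1 1) + (2)*(T 0 1*X 0 0*X 0 1*Y 1 0*Z 1 0) + (1)*(T
        0 1*X 0 0*X 1 0*Y 0 0*Z 0 0) + (1)*(T 0 1*X 0 0*X 1 0*Y 0 0*Z 1 1) + (2)*(T 0 1*X 0 0*X 1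
        0*Y 0 1*Z 1 0) + (2)*(T 0 1*X 0 0*X 1 0*Y 1 0*Z 0 1) + (1)*(T 0 1*X 0 0*X 1 0*Y 1 1*Z 0 0) +
        (1)*(T 0 1*X 0 0*X 1 0*Y 1 1*Z 1 1) + (3)*(T 0 1*X 0 0*X 1 1*Y 0 0*Z 1 0) + (-1)*(T 0 1*X 0
        0*X 1 1*Y 1 0*Z 0 0) + (3)*(T 0 1*X 0 0*X 1 1*Y 1 0*Z 1 1) + (1)*(T 0 1*X 0 0*X 1 1*Y 1 1*Z
        1 0) + (1)*(T 0 1*X 0 1*X 1 0*Y 0 0*Z 1 0) + (1)*(T 0 1*X 0 1*X 1 0*Y 1 0*Z 0 0) + (2)*(T 0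
        1*X 0 1*X 1 0*Y 1 0*Z 1 1) + (2)*(T 0 1*X 0 1*X 1 0*Y 1 1*Z 1 0) + (2)*(T 0 1*X 0 1*X 1 1*Y
        1 0*Z 1 0) + (1)*(T 0 1*X 1 0^2*Y 0 0*Z 0 1) + (1)*(T 0 1*X 1 0^2*Y 0 1*Z 0 0) + (2)*(T 0
        1*X 1 0^2*Y 0 1*Z 1 1) + (2)*(T 0 1*X 1 0^2*Y 1 1*Z 0 1) + (1)*(T 0 1*X 1 0*X 1 1*Y 0 0*Z 1
        1) + (2)*(T 0 1*X 1 0*X 1 1*Y 0 1*Z 1 0) + (2)*(T 0 1*X 1 0*X 1 1*Y 1 0*Z 0 1) + (1)*(T 0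
        1*X 1 0*X 1 1*Y 1 1*Z 0 0) + (6)*(T 0 1*X 1 0*X 1 1*Y 1 1*Z 1 1) + (1)*(T 0 1*X 1 1^2*Y 0
        0*Z 1 0) + (-1)*(T 0 1*X 1 1^2*Y 1 0*Z 0 0) + (2)*(T 0 1*X 1 1^2*Y 1 0*Z 1 1) + (1)*(T 0 1*X
        1 1^2*Y 1 1*Z 1 0) + (2)*(T 1 0*X 0 0^2*Y 0 1*Z 0 0) + (1)*(T 1 0*X 0 0^2*Y 1 1*Z 0 1) +
        (1)*(T 1 0*X 0 0*X 0 1*Y 0 0*Z 0 0) + (1)*(T 1 0*X 0 0*X 0 1*Y 0 0*Z 1 1) + (2)*(T 1 0*X 0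
        0*X 0 1*Y 0 1*Z 1 0) + (2)*(T 1 0*X 0 0*X 0 1*Y 1 0*Z 0 1) + (1)*(T 1 0*X 0 0*X 0 1*Y 1 1*Z
        0 0) + (1)*(T 1 0*X 0 0*X 0 1*Y 1 1*Z 1 1) + (2)*(T 1 0*X 0 0*X 1 0*Y 0 1*Z 0 1) + (-1)*(T 1
        0*X 0 0*X 1 1*Y 0 0*Z 0 1) + (3)*(T 1 0*X 0 0*X 1 1*Y 0 1*Z 0 0) + (1)*(T 1 0*X 0 0*X 1 1*Y
        0 1*Z 1 1) + (3)*(T 1 0*X 0 0*X 1 1*Y 1 1*Z 0 1) + (1)*(T 1 0*X 0 1^2*Y 0 0*Z 1 0) + (1)*(T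
        1 0*X 0 1^2*Y 1 0*Z 0 0) + (2)*(T 1 0*X 0 1^2*Y 1 0*Z 1 1) + (2)*(T 1 0*X 0 1^2*Y 1 1*Z 1 0)
        + (1)*(T 1 0*X 0 1*X 1 0*Y 0 0*Z 0 1) + (1)*(T 1 0*X 0 1*X 1 0*Y 0 1*Z 0 0) + (2)*(T 1 0*X 0
        1*X 1 0*Y 0 1*Z 1 1) + (2)*(T 1 0*X 0 1*X 1 0*Y 1 1*Z 0 1) + (1)*(T 1 0*X 0 1*X 1 1*Y 0 0*Z
        1 1) + (2)*(T 1 0*X 0 1*X 1 1*Y 0 1*Z 1 0) + (2)*(T 1 0*X 0 1*X 1 1*Y 1 0*Z 0 1) + (1)*(T 1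
        0*X 0 1*X 1 1*Y 1 1*Z 0 0) + (6)*(T 1 0*X 0 1*X 1 1*Y 1 1*Z 1 1) + (2)*(T 1 0*X 1 0*X 1 1*Y
        0 1*Z 0 1) + (-1)*(T 1 0*X 1 1^2*Y 0 0*Z 0 1) + (1)*(T 1 0*X 1 1^2*Y 0 1*Z 0 0) + (1)*(T 1
        0*X 1 1^2*Y 0 1*Z 1 1) + (2)*(T 1 0*X 1 1^2*Y 1 1*Z 0 1) + (1)*(T 1 1*X 0 0^2*Y 0 1*Z 1 0) +
        (1)*(T 1 1*X 0 0*X 0 1*Y 0 0*Z 1 0) + (1)*(T 1 1*X 0 0*X 0 1*Y 1 0*Z 0 0) + (1)*(T 1 1*X 0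
        0*X 0 1*Y 1 0*Z 1 1) + (1)*(T 1 1*X 0 0*X 0 1*Y 1 1*Z 1 0) + (1)*(T 1 1*X 0 0*X 1 0*Y 0 0*Z
        0 1) + (1)*(T 1 1*X 0 0*X 1 0*Y 0 1*Z 0 0) + (1)*(T 1 1*X 0 0*X 1 0*Y 0 1*Z 1 1) + (1)*(T 1
        1*X 0 0*X 1 0*Y 1 1*Z 0 1) + (3)*(T 1 1*X 0 0*X 1 1*Y 0 1*Z 1 0) + (1)*(T 1 1*X 0 0*X 1 1*Y
        1 0*Z 0 1) + (2)*(T 1 1*X 0 1^2*Y 1 0*Z 1 0) + (1)*(T 1 1*X 0 1*X 1 0*Y 0 0*Z 0 0) + (2)*(T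
        1 1*X 0 1*X 1 0*Y 0 0*Z 1 1) + (2)*(T 1 1*X 0 1*X 1 0*Y 0 1*Z 1 0) + (2)*(T 1 1*X 0 1*X 1
        0*Y 1 0*Z 0 1) + (2)*(T 1 1*X 0 1*X 1 0*Y 1 1*Z 0 0) + (3)*(T 1 1*X 0 1*X 1 0*Y 1 1*Z 1 1) +
        (1)*(T 1 1*X 0 1*X 1 1*Y 0 0*Z 1 0) + (1)*(T 1 1*X 0 1*X 1 1*Y 1 0*Z 0 0) + (6)*(T 1 1*X 0
        1*X 1 1*Y 1 0*Z 1 1) + (6)*(T 1 1*X 0 1*X 1 1*Y 1 1*Z 1 0) + (2)*(T 1 1*X 1 0^2*Y 0 1*Z 0 1)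
        + (1)*(T 1 1*X 1 0*X 1 1*Y 0 0*Z 0 1) + (1)*(T 1 1*X 1 0*X 1 1*Y 0 1*Z 0 0) + (6)*(T 1 1*X 1
        0*X 1 1*Y 0 1*Z 1 1) + (6)*(T 1 1*X 1 0*X 1 1*Y 1 1*Z 0 1) + (2)*(T 1 1*X 1 1^2*Y 0 1*Z 1 0)
        + (1)*(T 1 1*X 1 1^2*Y 1 0*Z 0 1) + (12)*(T 1 1*X 1 1^2*Y 1 1*Z 1 1)) * h4

end Mat

end Pool.Agent.Helper214.UC
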