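import Mathlib
import Pool.Agent.Helper214.UC.Mat

set_option autoImplicit false

namespace Pool.Agent.Helper214.UC

open Matrix

section Maps

variable {A B : Type*} [NonUnitalRing A] [NonUnitalRing B]

theorem map_s3 (φ : A →ₙ+* B) (u v w : A) : φ (s3 u v w) = s3 (φ u) (φ v) (φ w) := by
  simp [s3]

theorem map_s4 (φ : A →ₙ+* B) (x y z t : A) :
    φ (s4 x y z t) = s4 (φ x) (φ y) (φ z) (φ t) := by
  simp [s4, map_s3]

theorem map_W1 (φ : A →ₙ+* B) (x u v w : A) : φ (W1 x u v w) = W1 (φ x) (φ u) (φ v) (φ w) := by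
  simp [W1, g1]

theorem map_W (φ : A →ₙ+* B) (x y z t : A) : φ (W x y z t) = W (φ x) (φ y) (φ z) (φ t) := by
  simp [W, map_W1]

theorem map_ff (φ : A →ₙ+* B) (x y z t : A) : φ (ff x y z t) = ff (φ x) (φ y) (φ z) (φ t) := by
  simp [ff, map_s4, map_W]

theorem s3_add1 (x x' y z : A) : s3 (x + x') y z = s3 x y z + s3 x' y z := by
  simp only [s3, add_mul, mul_add]; abel

theorem s3_add2 (x y y' z : A) : s3 x (y + y') z = s3 x y z + s3 x y' z := by
  simp only [s3, add_mul, mul_add]; abel

theorem s3_add3 (x y z z' : A) : s3 x y (z + z') = s3 x y z + s3 x y z' := by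
  simp only [s3, add_mul, mul_add]; abel

theorem s4_add1 (x x' y z t : A) : s4 (x + x') y z t = s4 x y z t + s4 x' y z t := by
  simp only [s4, s3_add1, add_mul, mul_add]; abel

theorem s4_add2 (x y y' z t : A) : s4 x (y + y') z t = s4 x y z t + s4 x y' z t := by
  simp only [s4, s3_add1, s3_add2, add_mul, mul_add]; abel

theorem s4_add3 (x y z z' t : A) : s4 x y (z + z') t = s4 x y z t + s4 x y z' t := by
  simp only [s4, s3_add3, s3_add2, add_mul, mul_add]; abel

theorem s4_add4 (x y z t t' : A) : s4 x y z (t + t') = s4 x y z t + s4 x y z t' := by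
  simp only [s4, s3_add3, add_mul, mul_add]; abel

end Maps

section Mat2

variable {P : Type*} [CommRing P]

theorem K_add1 (x x' y z : Matrix (Fin 2) (Fin 2) P) : K (x + x') y z = K x y z + K x' y z := by
  ext i j
  fin_cases i <;> fin_cases j <;> simp [K, s3_add1] <;> ring

theorem K_add2 (x y y' z : Matrix (Fin 2) (Fin 2) P) : K x (y + y') z = K x y z + K x y' z := by
  ext i j
  fin_cases i <;> fin_cases j <;> simp [K, s3_add2] <;> ring

theorem K_add3 (x y z z' : Matrix (Fin 2) (Fin 2) P) : K x y (z + z') = K x y z + K x y z' := by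
  ext i j
  fin_cases i <;> fin_cases j <;> simp [K, s3_add3] <;> ring

theorem D_add (h4 : (4 : P) = 0) (x y : Matrix (Fin 2) (Fin 2) P) : D (x + y) = D x + D y := by
  simp only [D, Matrix.add_apply]
  linear_combination ((x 0 0 + x 1 1) * (y 0 0 + y 1 1)) * h4

/-- The common value of the degree five part on matrices. -/
def B2 (x y z t : Matrix (Fin 2) (Fin 2) P) : Matrix (Fin 2) (Fin 2) P :=
  D x • K y z t + D y • K x z t + D z • K x y t + D t • K x y z

theorem W_mat (h4 : (4 : P) = 0) (x y z t : Matrix (Fin 2) (Fin 2) P) :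
    (2 : ℤ) • W x y z t = B2 x y z t := by
  simp only [W, B2, smul_add, W1_mat h4]

theorem B2_add1 (h4 : (4 : P) = 0) (x x' y z t : Matrix (Fin 2) (Fin 2) P) :
    B2 (x + x') y z t = B2 x y z t + B2 x' y z t := by
  simp only [B2, D_add h4, K_add1, add_smul, smul_add]; abel

theorem B2_add2 (h4 : (4 : P) = 0) (x y y' z t : Matrix (Fin 2) (Fin 2) P) :
    B2 x (y + y') z t = B2 x y z t + B2 x y' z t := by
  simp only [B2, D_add h4, K_add1, K_add2, add_smul, smul_add]; abel

theorem B2_add3 (h4 : (4 : P) = 0) (x y z z' t : Matrix (Fin 2) (Fin 2) P) :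
    B2 x y (z + z') t = B2 x y z t + B2 x y z' t := by
  simp only [B2, D_add h4, K_add3, K_add2, add_smul, smul_add]; abel

theorem B2_add4 (h4 : (4 : P) = 0) (x y z t t' : Matrix (Fin 2) (Fin 2) P) :
    B2 x y z (t + t') = B2 x y z t + B2 x y z t' := by
  simp only [B2, D_add h4, K_add3, add_smul, smul_add]; abel

end Mat2

end Pool.Agent.Helper214.UC
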