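import Mathlib
import Pool.Agent.Helper214.UC.Alg

set_option autoImplicit false
set_option linter.unusedSimpArgs false

namespace Pool.Agent.Helper214.UC

open Matrix

/-- The free unital ring on five letters. -/
abbrev F := MonoidAlgebra ℤ (FreeMonoid (Fin 5))

/-- The commutative ring of polynomials over `ZMod 4` in five variables. -/
abbrev P := AddMonoidAlgebra (ZMod 4) (Multiset (Fin 5))

theorem P4 : (4 : P) = 0 := by
  have h : (4 : P) = AddMonoidAlgebra.single 0 (4 : ZMod 4) := rfl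
  rw [h]
  have : (4 : ZMod 4) = 0 := by decide
  rw [this, AddMonoidAlgebra.single_zero]

/-- matrix attached to a letter -/
def ml : Fin 5 → Matrix (Fin 2) (Fin 2) (ZMod 4)
  | 0 => !![0, 1; 1, 0]
  | 1 => !![0, 1; 1, 1]
  | 2 => !![0, 0; 1, 1]
  | 3 => !![1, 1; 0, 0]
  | 4 => !![1, 0; 0, 0]

/-- matrix attached to a word -/
def mw (l : List (Fin 5)) : Matrix (Fin 2) (Fin 2) (ZMod 4) := (l.map ml).prod

/-- a matrix over `ZMod 4` put in degree `c`. -/
noncomputable def inj (c : Multiset (Fin 5)) (M : Matrix (Fin 2) (Fin 2) (ZMod 4)) :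
    Matrix (Fin 2) (Fin 2) P := M.map (AddMonoidAlgebra.single c)

theorem inj_mul (c c' : Multiset (Fin 5)) (M M' : Matrix (Fin 2) (Fin 2) (ZMod 4)) :
    inj c M * inj c' M' = inj (c + c') (M * M') := by
  ext1 i j
  simp [inj, Matrix.mul_apply, Fin.sum_univ_two, AddMonoidAlgebra.single_mul_single]

theorem single_neg' (c : Multiset (Fin 5)) (r : ZMod 4) :
    (AddMonoidAlgebra.single c (-r) : P) = - AddMonoidAlgebra.single c r :=
  map_neg (AddMonoidAlgebra.singleAddHom (R := ZMod 4) c) r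

theorem inj_add (c : Multiset (Fin 5)) (M M' : Matrix (Fin 2) (Fin 2) (ZMod 4)) :
    inj c M + inj c M' = inj c (M + M') := by
  ext1 i j
  simp [inj]

theorem inj_neg (c : Multiset (Fin 5)) (M : Matrix (Fin 2) (Fin 2) (ZMod 4)) :
    - inj c M = inj c (- M) := by
  ext1 i j
  simp [inj, single_neg']

theorem inj_sub (c : Multiset (Fin 5)) (M M' : Matrix (Fin 2) (Fin 2) (ZMod 4)) :
    inj c M - inj c M' = inj c (M - M') := by
  rw [sub_eq_add_neg, inj_neg, inj_add, ← sub_eq_add_neg]

theorem inj_one : inj 0 1 = 1 := by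
  ext1 i j
  by_cases h : i = j
  · subst h; simp [inj]; rfl
  · simp [inj, h]

theorem s3_inj (c1 c2 c3 : Multiset (Fin 5)) (M1 M2 M3 : Matrix (Fin 2) (Fin 2) (ZMod 4)) :
    s3 (inj c1 M1) (inj c2 M2) (inj c3 M3) = inj (c1 + c2 + c3) (s3 M1 M2 M3) := by
  have e1 : c1 + c3 + c2 = c1 + c2 + c3 := by abel
  have e2 : c2 + c1 + c3 = c1 + c2 + c3 := by abel
  have e3 : c2 + c3 + c1 = c1 + c2 + c3 := by abel
  have e4 : c3 + c1 + c2 = c1 + c2 + c3 := by abel
  have e5 : c3 + c2 + c1 = c1 + c2 + c3 := by abel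
  simp only [s3, inj_mul, e1, e2, e3, e4, e5, inj_add, inj_sub]

theorem K_inj (c1 c2 c3 : Multiset (Fin 5)) (M1 M2 M3 : Matrix (Fin 2) (Fin 2) (ZMod 4)) :
    K (inj c1 M1) (inj c2 M2) (inj c3 M3) = inj (c1 + c2 + c3) (K M1 M2 M3) := by
  have h : ∀ i j, s3 (inj c1 M1) (inj c2 M2) (inj c3 M3) i j =
      AddMonoidAlgebra.single (c1 + c2 + c3) (s3 M1 M2 M3 i j) := fun i j => by
    rw [s3_inj]; rfl
  have h' : ∀ i j, inj (c1 + c2 + c3) (K M1 M2 M3) i j =
      AddMonoidAlgebra.single (c1 + c2 + c3) (K M1 M2 M3 i j) := fun i j => rfl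
  ext1 i j
  rw [h']
  fin_cases i <;> fin_cases j <;> simp [K, h, single_neg']

theorem D_inj (c : Multiset (Fin 5)) (M : Matrix (Fin 2) (Fin 2) (ZMod 4)) :
    D (inj c M) = AddMonoidAlgebra.single (c + c) (D M) := by
  have h2 : (2 : P) = AddMonoidAlgebra.single 0 (2 : ZMod 4) := rfl
  simp only [D, inj, Matrix.map_apply, ← AddMonoidAlgebra.single_add, pow_two, h2,
    AddMonoidAlgebra.single_mul_single, zero_add]

theorem smul_inj (c c' : Multiset (Fin 5)) (r : ZMod 4) (M : Matrix (Fin 2) (Fin 2) (ZMod 4)) :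
    (AddMonoidAlgebra.single c r : P) • inj c' M = inj (c + c') (r • M) := by
  ext1 i j
  simp [inj, AddMonoidAlgebra.single_mul_single]

/-- the two degrees that are looked at -/
def mu2 : Multiset (Fin 5) := {0, 1, 1, 2, 3, 4}
/-- the two degrees that are looked at -/
def mu4 : Multiset (Fin 5) := {0, 1, 2, 3, 3, 4}

/-- the linear functional on matrices over `P`. -/
noncomputable def psi : Matrix (Fin 2) (Fin 2) P →+ ZMod 4 where
  toFun M := (M 1 0).coeff mu2 + (M 1 1).coeff mu2 + (M 1 0).coeff mu4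
  map_zero' := by simp
  map_add' x y := by
    simp only [Matrix.add_apply, AddMonoidAlgebra.coeff_add, Finsupp.add_apply]
    ring

/-- the functional on homogeneous matrices -/
def q (c : Multiset (Fin 5)) (M : Matrix (Fin 2) (Fin 2) (ZMod 4)) : ZMod 4 :=
  (if c = mu2 then M 1 0 + M 1 1 else 0) + (if c = mu4 then M 1 0 else 0)

theorem psi_inj (c : Multiset (Fin 5)) (M : Matrix (Fin 2) (Fin 2) (ZMod 4)) :
    psi (inj c M) = q c M := by
  change (AddMonoidAlgebra.single c (M 1 0) : P).coeff mu2 +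
    (AddMonoidAlgebra.single c (M 1 1) : P).coeff mu2 +
    (AddMonoidAlgebra.single c (M 1 0) : P).coeff mu4 = q c M
  simp only [AddMonoidAlgebra.coeff_single, Finsupp.single_apply, q]
  split_ifs <;> simp

/-- the matrix representation -/
noncomputable def rep : F →ₐ[ℤ] Matrix (Fin 2) (Fin 2) P :=
  MonoidAlgebra.lift ℤ _ (FreeMonoid (Fin 5)) (FreeMonoid.lift fun i => inj {i} (ml i))

theorem rep_single (w : FreeMonoid (Fin 5)) :
    rep (MonoidAlgebra.single w 1) = inj (w.toList : Multiset (Fin 5)) (mw w.toList) := by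
  rw [rep, MonoidAlgebra.lift_single, one_smul, FreeMonoid.lift_apply]
  generalize w.toList = l
  induction l with
  | nil => simp [mw, inj_one]
  | cons a l ih =>
    rw [List.map_cons, List.prod_cons, ih, inj_mul, mw, mw, List.map_cons, List.prod_cons,
      Multiset.singleton_add, Multiset.cons_coe]

/-- the distinguished word -/
def w0 : FreeMonoid (Fin 5) := FreeMonoid.ofList [0, 1, 2, 3, 4]

/-- the functional on the free ring -/
noncomputable def lam : F →+ ZMod 4 where
  toFun x := 2 * ((x.coeff w0 : ℤ) : ZMod 4) + psi (rep x)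
  map_zero' := by simp
  map_add' x y := by
    simp only [MonoidAlgebra.coeff_add, Finsupp.add_apply, map_add, Int.cast_add]
    ring

theorem lam_apply (x : F) : lam x = 2 * ((x.coeff w0 : ℤ) : ZMod 4) + psi (rep x) := rfl

theorem lam_ff (a b x y z t : F) : lam (a * ff x y z t * b) =
    2 * (((a * s4 x y z t * b).coeff w0 : ℤ) : ZMod 4) +
      psi (rep a * B2 (rep x) (rep y) (rep z) (rep t) * rep b) := by
  have h1 : a * ff x y z t * b = a * s4 x y z t * b + (2 : ℤ) • (a * W x y z t * b) := by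
    simp only [ff, mul_add, add_mul, mul_smul_comm, smul_mul_assoc]
  have h2 : rep (a * ff x y z t * b) = rep a * B2 (rep x) (rep y) (rep z) (rep t) * rep b := by
    have := map_ff (rep : F →ₙ+* Matrix (Fin 2) (Fin 2) P) x y z t
    have h3 : rep (ff x y z t) = ff (rep x) (rep y) (rep z) (rep t) := this
    rw [map_mul, map_mul, h3, ff, s4_mat, zero_add, W_mat P4]
  rw [lam_apply, h2, h1]
  congr 1
  simp only [MonoidAlgebra.coeff_add, MonoidAlgebra.coeff_smul, Finsupp.add_apply,
    Finsupp.smul_apply, smul_eq_mul, Int.cast_add, Int.cast_mul, Int.cast_ofNat]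
  have h4 : (4 : ZMod 4) = 0 := by decide
  linear_combination (((a * W x y z t * b).coeff w0 : ℤ) : ZMod 4) * h4

end Pool.Agent.Helper214.UC
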