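import Mathlib
import Pool.Agent.Helper214.UC.Words

set_option autoImplicit false
set_option linter.unusedSimpArgs false

namespace Pool.Agent.Helper214.UC

open Matrix

/-- indicator of the distinguished word -/
def ind (l : List (Fin 5)) : ℤ := if l = [0, 1, 2, 3, 4] then 1 else 0

def sg3 {L : Type} (g : L → L → L → ℤ) (y z t : L) : ℤ :=
  g y z t - g y t z - g z y t + g z t y + g t y z - g t z y

def sg4 {L : Type} (g : L → L → L → L → ℤ) (x y z t : L) : ℤ :=
  sg3 (g x) y z t - sg3 (g y) x z t + sg3 (g z) x y t - sg3 (g t) x y z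

/-- the value of the functional on words -/
def chk (u x y z t v : List (Fin 5)) : ZMod 4 :=
  2 * ((sg4 (fun a b c d => ind (u ++ a ++ b ++ c ++ d ++ v)) x y z t : ℤ) : ZMod 4) +
  (q (↑u + (↑x + ↑x + (↑y + ↑z + ↑t)) + ↑v) (mw u * (D (mw x) • K (mw y) (mw z) (mw t)) * mw v) +
   q (↑u + (↑y + ↑y + (↑x + ↑z + ↑t)) + ↑v) (mw u * (D (mw y) • K (mw x) (mw z) (mw t)) * mw v) +
   q (↑u + (↑z + ↑z + (↑x + ↑y + ↑t)) + ↑v) (mw u * (D (mw z) • K (mw x) (mw y) (mw t)) * mw v) +
   q (↑u + (↑t + ↑t + (↑x + ↑y + ↑z)) + ↑v) (mw u * (D (mw t) • K (mw x) (mw y) (mw z)) * mw v))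

theorem coeff_sub' (x y : F) (w : FreeMonoid (Fin 5)) :
    (x - y).coeff w = x.coeff w - y.coeff w := by
  rfl

theorem single_w0 (w : FreeMonoid (Fin 5)) :
    (Finsupp.single w (1 : ℤ)) (FreeMonoid.ofList [0, 1, 2, 3, 4]) = ind w.toList := by
  classical
  rw [Finsupp.single_apply, ind]
  by_cases h : w = FreeMonoid.ofList [0, 1, 2, 3, 4]
  · subst h; simp
  · rw [if_neg h, if_neg]
    intro h'
    exact h (by rw [← h']; rfl)

theorem lam_words (u x y z t v : FreeMonoid (Fin 5)) :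
    lam (MonoidAlgebra.single u 1 * ff (MonoidAlgebra.single x 1) (MonoidAlgebra.single y 1)
      (MonoidAlgebra.single z 1) (MonoidAlgebra.single t 1) * MonoidAlgebra.single v 1) =
    chk u.toList x.toList y.toList z.toList t.toList v.toList := by
  rw [lam_ff]
  simp only [rep_single, B2, D_inj, K_inj, smul_inj, mul_add, add_mul, inj_mul, map_add, psi_inj,
    chk]
  congr 3
  simp only [s4, s3, mul_add, mul_sub, add_mul, sub_mul, MonoidAlgebra.single_mul_single, mul_one,
    MonoidAlgebra.coeff_add, Finsupp.add_apply, coeff_sub', MonoidAlgebra.coeff_single,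
    single_w0, sg4, sg3, w0, ← mul_assoc, FreeMonoid.toList_mul]

example : chk [0] [1] [2] [3] [4] [] = 0 := by decide

end Pool.Agent.Helper214.UC
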