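import Mathlib
import Pool.Agent.Helper214.UC.Chk

set_option autoImplicit false
set_option linter.unusedSimpArgs false

namespace Pool.Agent.Helper214.UC

open Matrix

set_option maxRecDepth 100000 in
theorem fin1 : ∀ a b c d e : Fin 5, [a, b, c, d, e].Nodup → chk [a] [b] [c] [d] [e] [] = 0 := by
  decide +kernel

set_option maxRecDepth 100000 in
theorem fin2 : ∀ a b c d e : Fin 5, [a, b, c, d, e].Nodup → chk [] [a, b] [c] [d] [e] [] = 0 := by
  decide +kernel

set_option maxRecDepth 100000 in
theorem fin3 : ∀ a b c d e : Fin 5, [a, b, c, d, e].Nodup → chk [] [a] [b, c] [d] [e] [] = 0 := by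
  decide +kernel

set_option maxRecDepth 100000 in
theorem fin4 : ∀ a b c d e : Fin 5, [a, b, c, d, e].Nodup → chk [] [a] [b] [c, d] [e] [] = 0 := by
  decide +kernel

set_option maxRecDepth 100000 in
theorem fin5 : ∀ a b c d e : Fin 5, [a, b, c, d, e].Nodup → chk [] [a] [b] [c] [d, e] [] = 0 := by
  decide +kernel

set_option maxRecDepth 100000 in
theorem fin6 : ∀ a b c d e : Fin 5, [a, b, c, d, e].Nodup → chk [] [a] [b] [c] [d] [e] = 0 := by
  decide +kernel

/-- all letters once -/
def full : Multiset (Fin 5) := {0, 1, 2, 3, 4}

theorem full_nodup : full.Nodup := by decide

theorem key2 (H c : Multiset (Fin 5)) (hle : c ≤ H) (h0 : c ≠ 0) (h : H + c = mu2) : H = full := by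
  have hc : ∀ i, Multiset.count i c ≤ Multiset.count i H := fun i => Multiset.count_le_of_le i hle
  have he : ∀ i, Multiset.count i H + Multiset.count i c = Multiset.count i mu2 := fun i => by
    rw [← Multiset.count_add, h]
  have m0 : Multiset.count 0 mu2 = 1 := by decide
  have m1 : Multiset.count 1 mu2 = 2 := by decide
  have m2 : Multiset.count 2 mu2 = 1 := by decide
  have m3 : Multiset.count 3 mu2 = 1 := by decide
  have m4 : Multiset.count 4 mu2 = 1 := by decide
  have a0 := hc 0; have a1 := hc 1; have a2 := hc 2; have a3 := hc 3; have a4 := hc 4
  have b0 := he 0; have b1 := he 1; have b2 := he 2; have b3 := he 3; have b4 := he 4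
  rw [m0] at b0; rw [m1] at b1; rw [m2] at b2; rw [m3] at b3; rw [m4] at b4
  have hne : Multiset.count 1 c ≠ 0 := by
    intro h1
    apply h0
    apply Multiset.eq_zero_of_forall_notMem
    intro i hi
    have := Multiset.count_pos.mpr hi
    fin_cases i <;> simp at this <;> omega
  have f0 : Multiset.count 0 full = 1 := by decide
  have f1 : Multiset.count 1 full = 1 := by decide
  have f2 : Multiset.count 2 full = 1 := by decide
  have f3 : Multiset.count 3 full = 1 := by decide
  have f4 : Multiset.count 4 full = 1 := by decide
  ext i
  fin_cases i
  · show Multiset.count 0 H = Multiset.count 0 full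
    omega
  · show Multiset.count 1 H = Multiset.count 1 full
    omega
  · show Multiset.count 2 H = Multiset.count 2 full
    omega
  · show Multiset.count 3 H = Multiset.count 3 full
    omega
  · show Multiset.count 4 H = Multiset.count 4 full
    omega

theorem key4 (H c : Multiset (Fin 5)) (hle : c ≤ H) (h0 : c ≠ 0) (h : H + c = mu4) : H = full := by
  have hc : ∀ i, Multiset.count i c ≤ Multiset.count i H := fun i => Multiset.count_le_of_le i hle
  have he : ∀ i, Multiset.count i H + Multiset.count i c = Multiset.count i mu4 := fun i => by
    rw [← Multiset.count_add, h]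
  have m0 : Multiset.count 0 mu4 = 1 := by decide
  have m1 : Multiset.count 1 mu4 = 1 := by decide
  have m2 : Multiset.count 2 mu4 = 1 := by decide
  have m3 : Multiset.count 3 mu4 = 2 := by decide
  have m4 : Multiset.count 4 mu4 = 1 := by decide
  have a0 := hc 0; have a1 := hc 1; have a2 := hc 2; have a3 := hc 3; have a4 := hc 4
  have b0 := he 0; have b1 := he 1; have b2 := he 2; have b3 := he 3; have b4 := he 4
  rw [m0] at b0; rw [m1] at b1; rw [m2] at b2; rw [m3] at b3; rw [m4] at b4
  have hne : Multiset.count 3 c ≠ 0 := by
    intro h1
    apply h0
    apply Multiset.eq_zero_of_forall_notMem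
    intro i hi
    have := Multiset.count_pos.mpr hi
    fin_cases i <;> simp at this <;> omega
  have f0 : Multiset.count 0 full = 1 := by decide
  have f1 : Multiset.count 1 full = 1 := by decide
  have f2 : Multiset.count 2 full = 1 := by decide
  have f3 : Multiset.count 3 full = 1 := by decide
  have f4 : Multiset.count 4 full = 1 := by decide
  ext i
  fin_cases i
  · show Multiset.count 0 H = Multiset.count 0 full
    omega
  · show Multiset.count 1 H = Multiset.count 1 full
    omega
  · show Multiset.count 2 H = Multiset.count 2 full
    omega
  · show Multiset.count 3 H = Multiset.count 3 full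
    omega
  · show Multiset.count 4 H = Multiset.count 4 full
    omega

theorem q_zero (H c c' : Multiset (Fin 5)) (M : Matrix (Fin 2) (Fin 2) (ZMod 4))
    (hH : H ≠ full) (hle : c ≤ H) (h0 : c ≠ 0) (he : c' = H + c) : q c' M = 0 := by
  have h1 : c' ≠ mu2 := fun h => hH (key2 H c hle h0 (he ▸ h))
  have h2 : c' ≠ mu4 := fun h => hH (key4 H c hle h0 (he ▸ h))
  simp [q, h1, h2]

theorem ind_zero (l : List (Fin 5)) (h : (l : Multiset (Fin 5)) ≠ full) : ind l = 0 := by
  rw [ind, if_neg]
  rintro rfl
  exact h rfl

theorem chk_zero_out (u x y z t v : List (Fin 5)) (hx : x ≠ []) (hy : y ≠ []) (hz : z ≠ [])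
    (ht : t ≠ []) (H : (↑(u ++ x ++ y ++ z ++ t ++ v) : Multiset (Fin 5)) ≠ full) :
    chk u x y z t v = 0 := by
  have hH : (u : Multiset (Fin 5)) + x + y + z + t + v ≠ full := by
    simpa only [Multiset.coe_add] using H
  have hind : ∀ a b c d : List (Fin 5), (a : Multiset (Fin 5)) + b + c + d = ↑x + ↑y + ↑z + ↑t →
      ind (u ++ a ++ b ++ c ++ d ++ v) = 0 := by
    intro a b c d h
    apply ind_zero
    intro h'
    apply hH
    rw [← h']
    simp only [← Multiset.coe_add]
    have e1 : (u : Multiset (Fin 5)) + x + y + z + t + v = u + (x + y + z + t) + v := by abel
    have e2 : (u : Multiset (Fin 5)) + a + b + c + d + v = u + (a + b + c + d) + v := by abel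
    rw [e1, e2, h]
  have hx' : (x : Multiset (Fin 5)) ≠ 0 := by simpa using hx
  have hy' : (y : Multiset (Fin 5)) ≠ 0 := by simpa using hy
  have hz' : (z : Multiset (Fin 5)) ≠ 0 := by simpa using hz
  have ht' : (t : Multiset (Fin 5)) ≠ 0 := by simpa using ht
  have lx : (x : Multiset (Fin 5)) ≤ u + x + y + z + t + v := by
    have : (u : Multiset (Fin 5)) + x + y + z + t + v = x + (u + y + z + t + v) := by abel
    rw [this]; exact Multiset.le_add_right _ _
  have ly : (y : Multiset (Fin 5)) ≤ u + x + y + z + t + v := by
    have : (u : Multiset (Fin 5)) + x + y + z + t + v = y + (u + x + z + t + v) := by abel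
    rw [this]; exact Multiset.le_add_right _ _
  have lz : (z : Multiset (Fin 5)) ≤ u + x + y + z + t + v := by
    have : (u : Multiset (Fin 5)) + x + y + z + t + v = z + (u + x + y + t + v) := by abel
    rw [this]; exact Multiset.le_add_right _ _
  have lt : (t : Multiset (Fin 5)) ≤ u + x + y + z + t + v := by
    have : (u : Multiset (Fin 5)) + x + y + z + t + v = t + (u + x + y + z + v) := by abel
    rw [this]; exact Multiset.le_add_right _ _
  have hs : sg4 (fun a b c d => ind (u ++ a ++ b ++ c ++ d ++ v)) x y z t = 0 := by
    simp only [sg4, sg3]
    rw [hind x y z t (by abel), hind x y t z (by abel), hind x z y t (by abel),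
      hind x z t y (by abel), hind x t y z (by abel), hind x t z y (by abel),
      hind y x z t (by abel), hind y x t z (by abel), hind y z x t (by abel),
      hind y z t x (by abel), hind y t x z (by abel), hind y t z x (by abel),
      hind z x y t (by abel), hind z x t y (by abel), hind z y x t (by abel),
      hind z y t x (by abel), hind z t x y (by abel), hind z t y x (by abel),
      hind t x y z (by abel), hind t x z y (by abel), hind t y x z (by abel),
      hind t y z x (by abel), hind t z x y (by abel), hind t z y x (by abel)]
    rfl
  rw [chk, hs, q_zero _ _ _ _ hH lx hx' (by abel), q_zero _ _ _ _ hH ly hy' (by abel),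
    q_zero _ _ _ _ hH lz hz' (by abel), q_zero _ _ _ _ hH lt ht' (by abel)]
  simp

theorem chk_zero (u x y z t v : List (Fin 5)) (hx : x ≠ []) (hy : y ≠ []) (hz : z ≠ [])
    (ht : t ≠ []) : chk u x y z t v = 0 := by
  by_cases H : (↑(u ++ x ++ y ++ z ++ t ++ v) : Multiset (Fin 5)) = full
  swap
  · exact chk_zero_out u x y z t v hx hy hz ht H
  have hn : (u ++ x ++ y ++ z ++ t ++ v).Nodup := by
    rw [← Multiset.coe_nodup, H]; exact full_nodup
  have hlen : (u ++ x ++ y ++ z ++ t ++ v).length = 5 := by
    have := congrArg Multiset.card H
    simpa [full] using this
  clear H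
  obtain ⟨x0, x', rfl⟩ := List.exists_cons_of_ne_nil hx
  obtain ⟨y0, y', rfl⟩ := List.exists_cons_of_ne_nil hy
  obtain ⟨z0, z', rfl⟩ := List.exists_cons_of_ne_nil hz
  obtain ⟨t0, t', rfl⟩ := List.exists_cons_of_ne_nil ht
  rcases u with _ | ⟨u0, u'⟩
  · rcases x' with _ | ⟨x1, x'⟩
    · rcases y' with _ | ⟨y1, y'⟩
      · rcases z' with _ | ⟨z1, z'⟩
        · rcases t' with _ | ⟨t1, t'⟩
          · rcases v with _ | ⟨v0, v'⟩
            · simp at hlen
            · obtain rfl : v' = [] := by
                apply List.eq_nil_of_length_eq_zero
                simp only [List.length_append, List.length_cons, List.length_nil] at hlen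
                omega
              exact fin6 _ _ _ _ _ (by simpa using hn)
          · obtain rfl : v = [] := by
              apply List.eq_nil_of_length_eq_zero
              simp only [List.length_append, List.length_cons, List.length_nil] at hlen
              omega
            obtain rfl : t' = [] := by
              apply List.eq_nil_of_length_eq_zero
              simp only [List.length_append, List.length_cons, List.length_nil] at hlen
              omega
            exact fin5 _ _ _ _ _ (by simpa using hn)
        · obtain rfl : v = [] := by
            apply List.eq_nil_of_length_eq_zero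
            simp only [List.length_append, List.length_cons, List.length_nil] at hlen
            omega
          obtain rfl : t' = [] := by
            apply List.eq_nil_of_length_eq_zero
            simp only [List.length_append, List.length_cons, List.length_nil] at hlen
            omega
          obtain rfl : z' = [] := by
            apply List.eq_nil_of_length_eq_zero
            simp only [List.length_append, List.length_cons, List.length_nil] at hlen
            omega
          exact fin4 _ _ _ _ _ (by simpa using hn)
      · obtain rfl : v = [] := by
          apply List.eq_nil_of_length_eq_zero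
          simp only [List.length_append, List.length_cons, List.length_nil] at hlen
          omega
        obtain rfl : t' = [] := by
          apply List.eq_nil_of_length_eq_zero
          simp only [List.length_append, List.length_cons, List.length_nil] at hlen
          omega
        obtain rfl : z' = [] := by
          apply List.eq_nil_of_length_eq_zero
          simp only [List.length_append, List.length_cons, List.length_nil] at hlen
          omega
        obtain rfl : y' = [] := by
          apply List.eq_nil_of_length_eq_zero
          simp only [List.length_append, List.length_cons, List.length_nil] at hlen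
          omega
        exact fin3 _ _ _ _ _ (by simpa using hn)
    · obtain rfl : v = [] := by
        apply List.eq_nil_of_length_eq_zero
        simp only [List.length_append, List.length_cons, List.length_nil] at hlen
        omega
      obtain rfl : t' = [] := by
        apply List.eq_nil_of_length_eq_zero
        simp only [List.length_append, List.length_cons, List.length_nil] at hlen
        omega
      obtain rfl : z' = [] := by
        apply List.eq_nil_of_length_eq_zero
        simp only [List.length_append, List.length_cons, List.length_nil] at hlen
        omega
      obtain rfl : y' = [] := by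
        apply List.eq_nil_of_length_eq_zero
        simp only [List.length_append, List.length_cons, List.length_nil] at hlen
        omega
      obtain rfl : x' = [] := by
        apply List.eq_nil_of_length_eq_zero
        simp only [List.length_append, List.length_cons, List.length_nil] at hlen
        omega
      exact fin2 _ _ _ _ _ (by simpa using hn)
  · obtain rfl : v = [] := by
      apply List.eq_nil_of_length_eq_zero
      simp only [List.length_append, List.length_cons, List.length_nil] at hlen
      omega
    obtain rfl : t' = [] := by
      apply List.eq_nil_of_length_eq_zero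
      simp only [List.length_append, List.length_cons, List.length_nil] at hlen
      omega
    obtain rfl : z' = [] := by
      apply List.eq_nil_of_length_eq_zero
      simp only [List.length_append, List.length_cons, List.length_nil] at hlen
      omega
    obtain rfl : y' = [] := by
      apply List.eq_nil_of_length_eq_zero
      simp only [List.length_append, List.length_cons, List.length_nil] at hlen
      omega
    obtain rfl : x' = [] := by
      apply List.eq_nil_of_length_eq_zero
      simp only [List.length_append, List.length_cons, List.length_nil] at hlen
      omega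
    obtain rfl : u' = [] := by
      apply List.eq_nil_of_length_eq_zero
      simp only [List.length_append, List.length_cons, List.length_nil] at hlen
      omega
    exact fin1 _ _ _ _ _ (by simpa using hn)

end Pool.Agent.Helper214.UC
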