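import Mathlib
import Pool.Agent.Helper214.UC.Zero

set_option autoImplicit false
set_option linter.unusedSimpArgs false

namespace Pool.Agent.Helper214.UC

open Matrix

/-- An additive map on a monoid algebra over the integers vanishing on monomials is zero. -/
theorem ext0 {M : Type} (g : MonoidAlgebra ℤ M → ZMod 4) (hadd : ∀ x y, g (x + y) = g x + g y)
    (h1 : ∀ m, g (MonoidAlgebra.single m 1) = 0) (x : MonoidAlgebra ℤ M) : g x = 0 := by
  have : AddMonoidHom.mk' g hadd = 0 := by
    apply MonoidAlgebra.addHom_ext'
    intro m
    apply AddMonoidHom.ext_int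
    simp [h1]
  exact DFunLike.congr_fun this x

/-- The free ring without unit on five letters. -/
abbrev E := MonoidAlgebra ℤ (FreeSemigroup (Fin 5))

/-- word of the free semigroup seen in the free ring -/
noncomputable def wordHom : FreeSemigroup (Fin 5) →ₙ* F :=
  FreeSemigroup.lift fun i => MonoidAlgebra.single (FreeMonoid.of i) 1

theorem wordHom_eq (w : FreeSemigroup (Fin 5)) :
    wordHom w = MonoidAlgebra.single (FreeMonoid.ofList (w.head :: w.tail)) 1 := by
  induction w using FreeSemigroup.recOnMul with
  | ih1 x => rfl
  | ih2 x y hx hy =>
    rw [map_mul, hy, wordHom, FreeSemigroup.lift_of, MonoidAlgebra.single_mul_single]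
    rfl

/-- inclusion of the free ring without unit into the free ring -/
noncomputable def iota : E →ₙₐ[ℤ] F := MonoidAlgebra.liftMagma ℤ wordHom

theorem iota_single (w : FreeSemigroup (Fin 5)) : iota (MonoidAlgebra.single w 1) =
    MonoidAlgebra.single (FreeMonoid.ofList (w.head :: w.tail)) 1 := by
  rw [← wordHom_eq]
  simp [iota]

/-- The main vanishing statement. -/
theorem main_zero (a b : F) (x y z t : E) :
    lam (a * ff (iota x) (iota y) (iota z) (iota t) * b) = 0 := by
  revert a
  apply ext0
  · intro a a'
    simp only [add_mul, map_add]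
  intro u
  revert b
  apply ext0
  · intro b b'
    simp only [mul_add, map_add]
  intro v
  revert x
  apply ext0
  · intro x x'
    simp only [lam_ff, map_add, s4_add1, B2_add1 P4, mul_add, add_mul, MonoidAlgebra.coeff_add,
      Finsupp.add_apply, Int.cast_add]
    ring
  intro x
  revert y
  apply ext0
  · intro y y'
    simp only [lam_ff, map_add, s4_add2, B2_add2 P4, mul_add, add_mul, MonoidAlgebra.coeff_add,
      Finsupp.add_apply, Int.cast_add]
    ring
  intro y
  revert z
  apply ext0
  · intro z z'
    simp only [lam_ff, map_add, s4_add3, B2_add3 P4, mul_add, add_mul, MonoidAlgebra.coeff_add,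
      Finsupp.add_apply, Int.cast_add]
    ring
  intro z
  revert t
  apply ext0
  · intro t t'
    simp only [lam_ff, map_add, s4_add4, B2_add4 P4, mul_add, add_mul, MonoidAlgebra.coeff_add,
      Finsupp.add_apply, Int.cast_add]
    ring
  intro t
  rw [iota_single, iota_single, iota_single, iota_single, lam_words]
  apply chk_zero <;> simp

/-- The congruence defining the ring. -/
noncomputable def con : RingCon E where
  r x y := ∀ a b : F, lam (a * iota x * b) = lam (a * iota y * b)
  iseqv := ⟨fun _ _ _ => rfl, fun h a b => (h a b).symm, fun h h' a b => (h a b).trans (h' a b)⟩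
  add' := by
    intro w x y z h h' a b
    simp only [map_add, mul_add, add_mul, h a b, h' a b]
  mul' := by
    intro w x y z h h' a b
    have e1 : a * iota (w * y) * b = a * iota w * (iota y * b) := by
      rw [map_mul]; noncomm_ring
    have e2 : a * iota (x * z) * b = a * iota x * iota z * b := by
      rw [map_mul]; noncomm_ring
    rw [e1, e2, h, ← h' (a * iota x) b]
    congr 1
    noncomm_ring

/-- The ring. -/
abbrev R := con.Quotient

noncomputable instance : NonUnitalRing R := inferInstance

end Pool.Agent.Helper214.UC
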